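import Pool.Agent.Helper65.LT.Pa

/-! # Project LT, piece P3 -/

set_option autoImplicit false

namespace Pool.Agent.Helper12.LT

open Pool.Agent.Helper34.LT Pool.Agent.Helper65.LT Complex Filter Topology

noncomputable section

private theorem P3_open : IsOpen Om := by
  have : Om = slitPlane ∩ D0 := rfl
  rw [this]
  exact isOpen_slitPlane.inter isOpen_D0

private theorem P3_half : (1 / 2 : ℂ) ∈ Om := by
  constructor
  · left
    norm_num
  · left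
    norm_num

private theorem P3_star : StarConvex ℝ (1 / 2 : ℂ) Om := by
  have h1 : StarConvex ℝ ((1 / 2 : ℝ) : ℂ) slitPlane :=
    starConvex_ofReal_slitPlane (by norm_num)
  have h2 : ((1 / 2 : ℝ) : ℂ) = 1 / 2 := by push_cast; ring
  rw [h2] at h1
  intro y hy a b ha hb hab
  refine ⟨h1 hy.1 ha hb hab, ?_⟩
  have h3 := h1 hy.2 ha hb hab
  have h4 : 1 - (a • (1 / 2 : ℂ) + b • y) = a • (1 / 2 : ℂ) + b • (1 - y) := by
    have h5 : (1 : ℂ) = a + b := by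
      rw [← ofReal_add, hab, ofReal_one]
    simp only [real_smul]
    linear_combination h5
  rw [h4]
  exact h3

private theorem P3_symm {x : ℂ} (hx : x ∈ Om) : 1 - x ∈ Om :=
  ⟨hx.2, by rw [sub_sub_cancel]; exact hx.1⟩

private theorem P3_deriv {α β : ℝ} (hα : 0 < α) (hβ : 0 < β) {x : ℂ} (hx : x ∈ Om) :
    HasDerivAt (fun x => x ^ (α:ℂ) * gg α β x + (1 - x) ^ (β:ℂ) * gg β α (1 - x)) 0 x := by
  have h1 := F_hasDerivAt (β := β) hα hx
  have h2 := F_hasDerivAt (β := α) hβ (P3_symm hx)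
  have h3 : HasDerivAt (fun x : ℂ => 1 - x) (-1) x := by
    simpa using (hasDerivAt_id x).const_sub 1
  have h4 := h2.comp x h3
  refine (h1.add h4).congr_deriv ?_
  rw [sub_sub_cancel]
  ring

/-- the value at `1/2` as an integral -/
private theorem P3_val (α β : ℝ) : (1 / 2 : ℂ) ^ (α:ℂ) * gg α β (1 / 2) =
    ∫ t in (0:ℝ)..(1 / 2), (t:ℂ) ^ ((α:ℂ) - 1) * (1 - (t:ℂ)) ^ ((β:ℂ) - 1) := by
  have h1 := intervalIntegral.smul_integral_comp_mul_left (a := 0) (b := 1)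
    (f := fun t : ℝ => (t:ℂ) ^ ((α:ℂ) - 1) * (1 - (t:ℂ)) ^ ((β:ℂ) - 1)) (1 / 2 : ℝ)
  rw [mul_zero, mul_one] at h1
  rw [← h1, gg, real_smul, ← intervalIntegral.integral_const_mul,
    ← intervalIntegral.integral_const_mul]
  refine intervalIntegral.integral_congr fun r hr => ?_
  rw [Set.uIcc_of_le zero_le_one] at hr
  have h2 : (((1 / 2 : ℝ) * r : ℝ) : ℂ) ^ ((α:ℂ) - 1) =
      (1 / 2 : ℂ) ^ ((α:ℂ) - 1) * (r:ℂ) ^ ((α:ℂ) - 1) := by
    have h3 := mul_cpow_ofReal_nonneg (a := 1 / 2) (b := r) (by norm_num) hr.1 ((α:ℂ) - 1)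
    rw [ofReal_mul, h3]
    push_cast
    ring
  have h4 : (1 / 2 : ℂ) ^ (α:ℂ) = (1 / 2 : ℂ) ^ ((α:ℂ) - 1) * (1 / 2) := by
    rw [Complex.cpow_sub _ _ (by norm_num), Complex.cpow_one]
    field_simp
  rw [h2, h4]
  have h5 : (1 : ℂ) - (((1 / 2 : ℝ) * r : ℝ) : ℂ) = 1 - (r:ℂ) * (1 / 2) := by
    push_cast
    ring
  rw [h5]
  push_cast
  ring

/-- PIECE P3 -/
theorem gg_add' {α β : ℝ} (hα : 0 < α) (hβ : 0 < β) {x : ℂ} (hx : x ∈ Om) :
    x ^ (α:ℂ) * gg α β x + (1 - x) ^ (β:ℂ) * gg β α (1 - x) = betaIntegral α β := by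
  have hd : DifferentiableOn ℂ
      (fun x => x ^ (α:ℂ) * gg α β x + (1 - x) ^ (β:ℂ) * gg β α (1 - x)) Om :=
    fun y hy => (P3_deriv hα hβ hy).differentiableAt.differentiableWithinAt
  have hpc : IsPreconnected Om :=
    (P3_star.isPathConnected P3_half).isConnected.isPreconnected
  have h1 := P3_open.is_const_of_deriv_eq_zero hpc hd
    (fun y hy => (P3_deriv hα hβ hy).deriv) hx P3_half
  rw [h1]
  have h2 : (1 : ℂ) - 1 / 2 = 1 / 2 := by norm_num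
  rw [h2, P3_val α β, P3_val β α]
  have h3 : ∫ t in (0:ℝ)..(1 / 2), (t:ℂ) ^ ((β:ℂ) - 1) * (1 - (t:ℂ)) ^ ((α:ℂ) - 1) =
      ∫ t in (1 / 2 : ℝ)..1, (t:ℂ) ^ ((α:ℂ) - 1) * (1 - (t:ℂ)) ^ ((β:ℂ) - 1) := by
    have h4 := intervalIntegral.integral_comp_sub_left (a := 0) (b := 1 / 2)
      (fun t : ℝ => (t:ℂ) ^ ((α:ℂ) - 1) * (1 - (t:ℂ)) ^ ((β:ℂ) - 1)) 1
    have h5 : (1 : ℝ) - 1 / 2 = 1 / 2 := by norm_num
    rw [h5, sub_zero] at h4
    rw [← h4]
    refine intervalIntegral.integral_congr fun r _ => ?_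
    have h6 : (1 : ℂ) - ((1 - r : ℝ) : ℂ) = r := by
      push_cast
      ring
    rw [h6]
    push_cast
    ring
  rw [h3]
  have hi := betaIntegral_convergent (u := (α:ℂ)) (v := (β:ℂ)) (by simpa using hα)
    (by simpa using hβ)
  have hi1 : IntervalIntegrable (fun x : ℝ =>
      (x : ℂ) ^ ((α:ℂ) - 1) * (1 - (x : ℂ)) ^ ((β:ℂ) - 1)) MeasureTheory.volume 0 (1 / 2) := by
    refine hi.mono_set ?_
    rw [Set.uIcc_of_le (by norm_num), Set.uIcc_of_le zero_le_one]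
    exact Set.Icc_subset_Icc le_rfl (by norm_num)
  have hi2 : IntervalIntegrable (fun x : ℝ =>
      (x : ℂ) ^ ((α:ℂ) - 1) * (1 - (x : ℂ)) ^ ((β:ℂ) - 1)) MeasureTheory.volume (1 / 2) 1 := by
    refine hi.mono_set ?_
    rw [Set.uIcc_of_le (by norm_num), Set.uIcc_of_le zero_le_one]
    exact Set.Icc_subset_Icc (by norm_num) le_rfl
  rw [intervalIntegral.integral_add_adjacent_intervals hi1 hi2]
  rfl

end

end Pool.Agent.Helper12.LT
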